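import Mathlib
import Pool.Agent.Helper941.Univ

set_option autoImplicit false

namespace Pool.Agent.Helper941.Zeta

open Encodable Denumerable Nat.Partrec Pool.Agent.Helper941.IsoProb

variable {α β γ : Type} [Primcodable α] [Primcodable β] [Primcodable γ]

theorem c_id : Computable fun a : α => a := Computable.id

theorem c_fst {f : α → β × γ} (h : Computable f) : Computable fun a => (f a).1 :=
  Computable.fst.comp h

theorem c_snd {f : α → β × γ} (h : Computable f) : Computable fun a => (f a).2 :=
  Computable.snd.comp h

theorem c_const (b : β) : Computable fun _ : α => b := Computable.const b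

theorem c_pair {f : α → β} {g : α → γ} (hf : Computable f) (hg : Computable g) :
    Computable fun a => (f a, g a) := Computable.pair hf hg

theorem c_npair {f g : α → ℕ} (hf : Computable f) (hg : Computable g) :
    Computable fun a => Nat.pair (f a) (g a) := (Primrec₂.natPair.to_comp).comp hf hg

theorem c_up1 {f : α → ℕ} (hf : Computable f) : Computable fun a => (f a).unpair.1 :=
  Computable.fst.comp (Computable.unpair.comp hf)

theorem c_up2 {f : α → ℕ} (hf : Computable f) : Computable fun a => (f a).unpair.2 :=
  Computable.snd.comp (Computable.unpair.comp hf)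

theorem c_succ {f : α → ℕ} (hf : Computable f) : Computable fun a => f a + 1 :=
  Computable.succ.comp hf

theorem c_add {f g : α → ℕ} (hf : Computable f) (hg : Computable g) :
    Computable fun a => f a + g a := (Primrec.nat_add.to_comp).comp hf hg

theorem c_sub {f g : α → ℕ} (hf : Computable f) (hg : Computable g) :
    Computable fun a => f a - g a := (Primrec.nat_sub.to_comp).comp hf hg

theorem c_mul {f g : α → ℕ} (hf : Computable f) (hg : Computable g) :
    Computable fun a => f a * g a := (Primrec.nat_mul.to_comp).comp hf hg

theorem c_div2 {f : α → ℕ} (hf : Computable f) : Computable fun a => f a / 2 :=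
  (Primrec.nat_div.to_comp).comp hf (Computable.const 2)

theorem c_mod2 {f : α → ℕ} (hf : Computable f) : Computable fun a => f a % 2 :=
  (Primrec.nat_mod.to_comp).comp hf (Computable.const 2)

theorem c_max {f g : α → ℕ} (hf : Computable f) (hg : Computable g) :
    Computable fun a => max (f a) (g a) := (Primrec.nat_max.to_comp).comp hf hg

theorem c_ent {f g : α → ℕ} (hf : Computable f) (hg : Computable g) :
    Computable fun a => ent (f a) (g a) := computable_ent hf hg

theorem c_ite {P : α → Prop} [DecidablePred P] {f g : α → β} (hP : ComputablePred P)
    (hf : Computable f) (hg : Computable g) : Computable fun a => if P a then f a else g a := by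
  obtain ⟨b, hb, rfl⟩ := ComputablePred.computable_iff.1 hP
  refine (Computable.cond hb hf hg).of_eq fun a => ?_
  by_cases h : b a = true
  · simp [h]
  · simp [h]

theorem p_lt {f g : α → ℕ} (hf : Computable f) (hg : Computable g) :
    ComputablePred fun a => f a < g a := nat_lt_comp hf hg

theorem p_le {f g : α → ℕ} (hf : Computable f) (hg : Computable g) :
    ComputablePred fun a => f a ≤ g a := nat_le_comp hf hg

theorem p_eq {f g : α → ℕ} (hf : Computable f) (hg : Computable g) :
    ComputablePred fun a => f a = g a := eq_comp hf hg

theorem p_eqb {f g : α → Bool} (hf : Computable f) (hg : Computable g) :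
    ComputablePred fun a => f a = g a := eq_comp hf hg

theorem p_and {P Q : α → Prop} (hP : ComputablePred P) (hQ : ComputablePred Q) :
    ComputablePred fun a => P a ∧ Q a := computablePred_and hP hQ

theorem p_or {P Q : α → Prop} (hP : ComputablePred P) (hQ : ComputablePred Q) :
    ComputablePred fun a => P a ∨ Q a := computablePred_or hP hQ

theorem p_not {P : α → Prop} (hP : ComputablePred P) : ComputablePred fun a => ¬ P a := hP.not

theorem p_imp {P Q : α → Prop} (hP : ComputablePred P) (hQ : ComputablePred Q) :
    ComputablePred fun a => P a → Q a :=
  (computablePred_or hP.not hQ).of_eq fun _ => imp_iff_not_or.symm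

theorem p_iff {P Q : α → Prop} (hP : ComputablePred P) (hQ : ComputablePred Q) :
    ComputablePred fun a => P a ↔ Q a :=
  (p_and (p_imp hP hQ) (p_imp hQ hP)).of_eq fun _ => iff_def.symm

theorem p_ball {f : α → ℕ} {P : α → ℕ → Prop} (hf : Computable f)
    (hP : ComputablePred fun p : α × ℕ => P p.1 p.2) :
    ComputablePred fun a => ∀ y < f a, P a y :=
  computablePred_comp (computable_ball (P := fun p : α × ℕ => P p.1 p.2) hP)
    (Computable.pair Computable.id hf)

theorem p_bex {f : α → ℕ} {P : α → ℕ → Prop} (hf : Computable f)
    (hP : ComputablePred fun p : α × ℕ => P p.1 p.2) :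
    ComputablePred fun a => ∃ y < f a, P a y :=
  computablePred_comp (computable_bex (P := fun p : α × ℕ => P p.1 p.2) hP)
    (Computable.pair Computable.id hf)

/-- tabulation of a computable function -/
theorem c_tab {f : α → ℕ} {g : α → ℕ → β} (hf : Computable f)
    (hg : Computable fun p : α × ℕ => g p.1 p.2) :
    Computable fun a => (List.range (f a)).map (g a) := by
  have h : Computable fun a => (Nat.rec [] (fun n l => l ++ [g a n]) (f a) : List β) := by
    refine Computable.nat_rec (f := f) (g := fun _ => ([] : List β))
      (h := fun (a : α) (q : ℕ × List β) => q.2 ++ [g a q.1]) hf (Computable.const []) ?_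
    refine Computable.list_concat.comp (Computable.snd.comp Computable.snd) ?_
    exact hg.comp (Computable.pair Computable.fst (Computable.fst.comp Computable.snd))
  refine h.of_eq fun a => ?_
  induction f a with
  | zero => simp
  | succ n ih => rw [List.range_succ, List.map_append, ← ih]; simp

theorem p_of_bool {f : α → Bool} (hf : Computable f) : ComputablePred fun a => f a = true :=
  ComputablePred.computable_iff.2 ⟨f, hf, rfl⟩

open Classical in
theorem c_decide {P : α → Prop} (hP : ComputablePred P) : Computable fun a => decide (P a) := by
  obtain ⟨b, hb, rfl⟩ := ComputablePred.computable_iff.1 hP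
  exact hb.of_eq fun a => by simp

/-- minimisation -/
theorem c_least {P : α → ℕ → Prop} (hP : ComputablePred fun p : α × ℕ => P p.1 p.2)
    (hex : ∀ a, ∃ n, P a n) : Computable fun a => sInf {n | P a n} := by
  obtain ⟨b, hb, e⟩ := ComputablePred.computable_iff.1 hP
  have e' : ∀ a n, P a n ↔ b (a, n) = true := fun a n => by
    have := congrFun e (a, n)
    simpa using this
  have h1 : Partrec (fun a : α => Nat.rfind fun n => Part.some (b (a, n))) :=
    Partrec.rfind (p := fun a n => Part.some (b (a, n))) hb.partrec
  refine h1.of_eq fun a => ?_
  refine Part.eq_some_iff.2 ?_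
  rw [Nat.mem_rfind]
  constructor
  · have : P a (sInf {n | P a n}) := Nat.sInf_mem (s := {n | P a n}) (hex a)
    rw [e'] at this
    simp [this]
  · intro m hm
    have hm' : m < sInf {n | P a n} := hm
    have : ¬ P a m := fun h => by
      have := Nat.sInf_le (s := {n | P a n}) h
      omega
    rw [e'] at this
    simp only [Bool.not_eq_true] at this
    simp [this]

end Pool.Agent.Helper941.Zeta
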